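import Pool.Agent.R70.BC.Upper

set_option autoImplicit false

/-!
# Ramsey colourings whose red graph is a union of few comparability graphs: finite bounds
-/

namespace Pool.Agent.H37Z.PO

open Finset Pool.Agent.R70.BC

/-- The edges of `G` can be oriented and labelled with `t` labels (an edge may have several labels)
such that two consecutive arcs with the same label are closed by an edge of `G`. -/
def Closed {V : Type*} (G : SimpleGraph V) (t : ℕ) : Prop :=
  ∃ r : Fin t → V → V → Prop, (∀ i u v, r i u v → ¬ r i v u) ∧ (∀ i u v, r i u v → G.Adj u v) ∧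
    (∀ u v, G.Adj u v → ∃ i, r i u v ∨ r i v u) ∧
    ∀ i u v w, r i u v → r i v w → G.Adj u w

variable {V : Type*} [DecidableEq V]

/-- a graph with an orientation of small out-degree has a large independent set -/
lemma sparse (G : SimpleGraph V) (d : ℕ) (out : V → Finset V) : ∀ (y : ℕ) (T : Finset V),
    (∀ v ∈ T, (out v).card ≤ d) → (∀ u ∈ T, ∀ v ∈ T, G.Adj u v → u ∈ out v ∨ v ∈ out u) →
    CB Gᶜ T y → T.card ≤ y * (2 * d + 1) := by
  classical
  intro y
  induction y with
  | zero =>
    intro T _ _ hy
    rcases T.eq_empty_or_nonempty with h | ⟨v, hv⟩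
    · subst h; simp
    · have := hy {v} (by simpa using hv) (by simp)
      simp at this
  | succ y ih =>
    intro T hd hadj hy
    rcases T.eq_empty_or_nonempty with h | hne
    · subst h; simp
    -- a vertex of small in-degree
    have hsum : ∑ v ∈ T, (T.filter (fun u => v ∈ out u)).card ≤ ∑ v ∈ T, d := by
      calc ∑ v ∈ T, (T.filter (fun u => v ∈ out u)).card
          = ∑ v ∈ T, ∑ u ∈ T, if v ∈ out u then 1 else 0 := by
            refine sum_congr rfl fun v _ => ?_
            rw [card_filter]
        _ = ∑ u ∈ T, ∑ v ∈ T, if v ∈ out u then 1 else 0 := sum_comm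
        _ = ∑ u ∈ T, (T.filter (fun v => v ∈ out u)).card := by
            refine sum_congr rfl fun v _ => ?_
            rw [card_filter]
        _ ≤ ∑ u ∈ T, d := by
            refine sum_le_sum fun u hu => ?_
            refine le_trans (card_le_card ?_) (hd u hu)
            intro v hv
            exact (mem_filter.1 hv).2
    obtain ⟨v, hv, hvd⟩ := exists_le_of_sum_le hne hsum
    set T' := T.filter (fun u => u ≠ v ∧ ¬ G.Adj v u) with hT'
    have hcard : T.card ≤ T'.card + (2 * d + 1) := by
      have hsub : T ⊆ T' ∪ ((out v ∪ T.filter (fun u => v ∈ out u)) ∪ {v}) := by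
        intro u hu
        by_cases huv : u = v
        · subst huv; simp
        by_cases hG : G.Adj v u
        · rcases hadj v hv u hu hG with h | h
          · simp [hu, h]
          · simp [h]
        · simp [hT', hu, huv, hG]
      have h1 := card_le_card hsub
      have h2 := card_union_le T' ((out v ∪ T.filter (fun u => v ∈ out u)) ∪ {v})
      have h3 := card_union_le (out v ∪ T.filter (fun u => v ∈ out u)) {v}
      have h4 := card_union_le (out v) (T.filter (fun u => v ∈ out u))
      have h5 := hd v hv
      have h6 : ({v} : Finset V).card = 1 := card_singleton v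
      omega
    have hy' : CB Gᶜ T' y := by
      intro C hC hcl
      have hvC : v ∉ C := fun h => by
        have := hC h
        rw [hT', mem_filter] at this
        exact this.2.1 rfl
      have := hy (insert v C) (insert_subset hv (hC.trans (filter_subset _ _))) (by
        rw [coe_insert]
        refine SimpleGraph.IsClique.insert hcl ?_
        intro b hb hvb
        rw [SimpleGraph.compl_adj]
        have hb' := hC hb
        rw [hT', mem_filter] at hb'
        exact ⟨hvb, hb'.2.2⟩)
      rw [card_insert_of_notMem hvC] at this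
      omega
    have h1 := ih T' (fun u hu => hd u (mem_filter.1 hu).1)
      (fun u hu w hw => hadj u (mem_filter.1 hu).1 w (mem_filter.1 hw).1) hy'
    calc T.card ≤ T'.card + (2 * d + 1) := hcard
      _ ≤ y * (2 * d + 1) + (2 * d + 1) := by gcongr
      _ = (y + 1) * (2 * d + 1) := by ring

/-- the halving step -/
lemma cstep (G : SimpleGraph V) {t : ℕ} (r : Fin t → V → V → Prop)
    (h1 : ∀ i u v, r i u v → ¬ r i v u) (h2 : ∀ i u v, r i u v → G.Adj u v)
    (h3 : ∀ u v, G.Adj u v → ∃ i, r i u v ∨ r i v u)
    (h4 : ∀ i u v w, r i u v → r i v w → G.Adj u w) (x y F : ℕ)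
    (hF : ∀ U : Finset V, CB G U (x / 2) → CB Gᶜ U y → U.card ≤ F)
    (S : Finset V) (hx : CB G S x) (hy : CB Gᶜ S y) :
    S.card ≤ 2 ^ t * (y * (2 * (t * F) + 1)) := by
  classical
  have key : ∀ v ∈ S, ∀ i, (S.filter (fun u => r i u v)).card ≤ F ∨
      (S.filter (fun u => r i v u)).card ≤ F := by
    intro v hv i
    by_cases hD : CB G (S.filter (fun u => r i u v)) (x / 2)
    · exact Or.inl (hF _ hD (hy.mono (filter_subset _ _)))
    by_cases hU : CB G (S.filter (fun u => r i v u)) (x / 2)
    · exact Or.inr (hF _ hU (hy.mono (filter_subset _ _)))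
    exfalso
    unfold CB at hD hU
    push Not at hD hU
    obtain ⟨C, hC, hC1, hC2⟩ := hD
    obtain ⟨D, hD, hD1, hD2⟩ := hU
    have hdisj : Disjoint C D := by
      rw [Finset.disjoint_left]
      intro a ha hb
      exact h1 i a v (mem_filter.1 (hC ha)).2 (mem_filter.1 (hD hb)).2
    have hcl := hx (C ∪ D) (union_subset (hC.trans (filter_subset _ _))
        (hD.trans (filter_subset _ _))) ?_
    · rw [card_union_of_disjoint hdisj] at hcl; omega
    · intro a ha b hb hab
      simp only [coe_union, Set.mem_union, mem_coe] at ha hb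
      rcases ha with ha | ha <;> rcases hb with hb | hb
      · exact hC1 ha hb hab
      · exact h4 i a v b (mem_filter.1 (hC ha)).2 (mem_filter.1 (hD hb)).2
      · exact (h4 i b v a (mem_filter.1 (hC hb)).2 (mem_filter.1 (hD ha)).2).symm
      · exact hD1 ha hb hab
  set σ : V → (Fin t → Bool) := fun v i => decide ((S.filter (fun u => r i u v)).card ≤ F) with hσ
  have hfib : S.card = ∑ b : Fin t → Bool, (S.filter (fun v => σ v = b)).card :=
    card_eq_sum_card_fiberwise (fun _ _ => mem_coe.2 (mem_univ _))
  have hb : ∀ b : Fin t → Bool, (S.filter (fun v => σ v = b)).card ≤ y * (2 * (t * F) + 1) := by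
    intro b
    set out : V → Finset V := fun v => univ.biUnion (fun i : Fin t =>
      if b i = true then S.filter (fun u => r i u v) else S.filter (fun u => r i v u)) with hout
    refine sparse G (t * F) out y _ ?_ ?_ (hy.mono (filter_subset _ _))
    · intro v hv
      obtain ⟨hvS, hvb⟩ := mem_filter.1 hv
      calc (out v).card ≤ ∑ i : Fin t, (if b i = true then S.filter (fun u => r i u v)
            else S.filter (fun u => r i v u)).card := card_biUnion_le
        _ ≤ ∑ _i : Fin t, F := by
            refine sum_le_sum fun i _ => ?_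
            have hbi : b i = decide ((S.filter (fun u => r i u v)).card ≤ F) := by
              rw [← hvb]
            by_cases hc : (S.filter (fun u => r i u v)).card ≤ F
            · have : b i = true := by rw [hbi]; exact decide_eq_true hc
              rw [if_pos this]
              exact hc
            · have : ¬ b i = true := by rw [hbi]; simpa using hc
              rw [if_neg this]
              exact (key v hvS i).resolve_left hc
        _ = t * F := by simp
    · intro u hu v hv hadj
      have huS := (mem_filter.1 hu).1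
      have hvS := (mem_filter.1 hv).1
      obtain ⟨i, hi⟩ := h3 u v hadj
      by_cases hbi : b i = true
      · rcases hi with hi | hi
        · left
          rw [hout]
          simp only [mem_biUnion, mem_univ, true_and]
          exact ⟨i, by rw [if_pos hbi]; exact mem_filter.2 ⟨huS, hi⟩⟩
        · right
          rw [hout]
          simp only [mem_biUnion, mem_univ, true_and]
          exact ⟨i, by rw [if_pos hbi]; exact mem_filter.2 ⟨hvS, hi⟩⟩
      · rcases hi with hi | hi
        · right
          rw [hout]
          simp only [mem_biUnion, mem_univ, true_and]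
          exact ⟨i, by rw [if_neg hbi]; exact mem_filter.2 ⟨hvS, hi⟩⟩
        · left
          rw [hout]
          simp only [mem_biUnion, mem_univ, true_and]
          exact ⟨i, by rw [if_neg hbi]; exact mem_filter.2 ⟨huS, hi⟩⟩
  calc S.card = ∑ b : Fin t → Bool, (S.filter (fun v => σ v = b)).card := hfib
    _ ≤ ∑ _b : Fin t → Bool, y * (2 * (t * F) + 1) := sum_le_sum fun b _ => hb b
    _ = 2 ^ t * (y * (2 * (t * F) + 1)) := by simp

/-- iteration of the halving step -/
lemma citer (G : SimpleGraph V) {t : ℕ} (ht : 1 ≤ t) (hG : Closed G t) {y : ℕ} (hy1 : 1 ≤ y) :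
    ∀ (j x : ℕ) (S : Finset V), 2 ^ j ≤ x → CB G S x → CB Gᶜ S y →
      S.card ≤ (3 * t * y * 2 ^ t) ^ j * (x / 2 ^ j + y).choose (x / 2 ^ j) := by
  obtain ⟨r, h1, h2, h3, h4⟩ := hG
  intro j
  induction j with
  | zero =>
    intro x S _ hx hy
    have := es G (x + y) x y rfl S hx hy
    simp only [pow_zero, Nat.div_one, one_mul]
    omega
  | succ j ih =>
    intro x S hjx hx hy
    have hj2 : 2 ^ j ≤ x / 2 := by
      rw [Nat.le_div_iff_mul_le (by norm_num)]
      calc 2 ^ j * 2 = 2 ^ (j + 1) := by ring
        _ ≤ x := hjx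
    have hdiv : x / 2 / 2 ^ j = x / 2 ^ (j + 1) := by
      rw [Nat.div_div_eq_div_mul]; congr 1; ring
    set F := (3 * t * y * 2 ^ t) ^ j * (x / 2 / 2 ^ j + y).choose (x / 2 / 2 ^ j) with hFdef
    have hs := cstep G r h1 h2 h3 h4 x y F (fun U hU1 hU2 => ih (x / 2) U hj2 hU1 hU2) S hx hy
    have hF1 : 1 ≤ F := by
      rw [hFdef]
      have : 0 < (x / 2 / 2 ^ j + y).choose (x / 2 / 2 ^ j) := Nat.choose_pos (by omega)
      have : 0 < (3 * t * y * 2 ^ t) ^ j := by positivity
      exact Nat.mul_pos this (Nat.choose_pos (by omega))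
    have h5 : 2 * (t * F) + 1 ≤ 3 * t * F := by
      have : 1 ≤ t * F := Nat.mul_pos ht hF1
      nlinarith
    calc S.card ≤ 2 ^ t * (y * (2 * (t * F) + 1)) := hs
      _ ≤ 2 ^ t * (y * (3 * t * F)) := by gcongr
      _ = (3 * t * y * 2 ^ t) ^ (j + 1) * (x / 2 ^ (j + 1) + y).choose (x / 2 ^ (j + 1)) := by
        rw [hFdef, hdiv]; ring

/-- Mirsky's theorem in the form needed here -/
lemma mirsky (r : V → V → Prop) [IsStrictOrder V r] (B : ℕ) : ∀ (a : ℕ) (S : Finset V),
    (∀ C ⊆ S, (∀ u ∈ C, ∀ v ∈ C, u ≠ v → r u v ∨ r v u) → C.card ≤ a) →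
    (∀ M ⊆ S, (∀ u ∈ M, ∀ v ∈ M, ¬ r u v) → M.card ≤ B) → S.card ≤ a * B := by
  classical
  intro a
  induction a with
  | zero =>
    intro S hc _
    rcases S.eq_empty_or_nonempty with h | ⟨v, hv⟩
    · subst h; simp
    · have := hc {v} (by simpa using hv) (by
        intro u hu w hw huw
        rw [mem_singleton] at hu hw
        exact absurd (hu.trans hw.symm) huw)
      simp at this
  | succ a ih =>
    intro S hc hM
    set M := S.filter (fun v => ∀ u ∈ S, ¬ r u v) with hMd
    have hMc : M.card ≤ B := by
      refine hM M (filter_subset _ _) ?_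
      intro u hu v hv
      exact (mem_filter.1 hv).2 u (mem_filter.1 hu).1
    have hS : (S \ M).card ≤ a * B := by
      refine ih (S \ M) ?_ ?_
      · intro C hC hchain
        rcases C.eq_empty_or_nonempty with h | hne
        · subst h; simp
        -- the least element of the chain `C`
        obtain ⟨m, hm, hmin⟩ : ∃ m ∈ C, ∀ u ∈ C, ¬ r u m := by
          have hwf : WellFounded (fun u v : C => r u v) :=
            Finite.wellFounded_of_trans_of_irrefl _
          obtain ⟨m, -, hm⟩ := hwf.has_min Set.univ ⟨⟨hne.choose, hne.choose_spec⟩, trivial⟩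
          exact ⟨m, m.2, fun u hu hr => hm ⟨u, hu⟩ trivial hr⟩
        have hmS : m ∈ S := (mem_sdiff.1 (hC hm)).1
        have hmM : m ∉ M := (mem_sdiff.1 (hC hm)).2
        obtain ⟨w, hwS, hwm⟩ : ∃ w ∈ S, r w m := by
          by_contra hcon
          push Not at hcon
          exact hmM (mem_filter.2 ⟨hmS, hcon⟩)
        have hwall : ∀ u ∈ C, r w u := by
          intro u hu
          by_cases hum : u = m
          · rw [hum]; exact hwm
          · rcases hchain u hu m hm hum with h | h
            · exact absurd h (hmin u hu)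
            · exact _root_.trans hwm h
        have hwC : w ∉ C := fun h => irrefl w (hwall w h)
        have := hc (insert w C) (insert_subset hwS (hC.trans sdiff_subset)) (by
          intro u hu v hv huv
          rcases mem_insert.1 hu with hu | hu <;> rcases mem_insert.1 hv with hv | hv
          · exact absurd (hu.trans hv.symm) huv
          · left; rw [hu]; exact hwall v hv
          · right; rw [hv]; exact hwall u hu
          · exact hchain u hu v hv huv)
        rw [card_insert_of_notMem hwC] at this
        omega
      · intro N hN hanti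
        exact hM N (hN.trans sdiff_subset) hanti
    have h1 : S.card = (S \ M).card + M.card := by
      rw [card_sdiff_add_card_eq_card (filter_subset _ _)]
    calc S.card = (S \ M).card + M.card := h1
      _ ≤ a * B + B := by omega
      _ = (a + 1) * B := by ring

/-- the classical bound for unions of comparability graphs -/
lemma classical_bound (G : SimpleGraph V) {ι : Type*} [DecidableEq ι] (r : ι → V → V → Prop)
    (hr : ∀ i, IsStrictOrder V (r i)) (h2 : ∀ i u v, r i u v → G.Adj u v) (x y : ℕ) :
    ∀ (I : Finset ι) (S : Finset V), CB G S x → CB Gᶜ S y →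
      (∀ u ∈ S, ∀ v ∈ S, G.Adj u v → ∃ i ∈ I, r i u v ∨ r i v u) →
      S.card ≤ x ^ I.card * y := by
  classical
  intro I
  induction I using Finset.induction_on with
  | empty =>
    intro S _ hy h
    simp only [card_empty, pow_zero, one_mul]
    refine hy S (Finset.Subset.refl _) ?_
    intro u hu v hv huv
    rw [SimpleGraph.compl_adj]
    refine ⟨huv, fun hadj => ?_⟩
    obtain ⟨i, hi, _⟩ := h u hu v hv hadj
    simp at hi
  | insert i I hi ih =>
    intro S hx hy h
    haveI := hr i
    have := mirsky (r i) (x ^ I.card * y) x S ?_ ?_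
    · rw [card_insert_of_notMem hi]
      calc S.card ≤ x * (x ^ I.card * y) := this
        _ = x ^ (I.card + 1) * y := by ring
    · intro C hC hchain
      refine hx C hC ?_
      intro u hu v hv huv
      rcases hchain u hu v hv huv with h' | h'
      · exact h2 i u v h'
      · exact (h2 i v u h').symm
    · intro M hM hanti
      refine ih M (hx.mono hM) (hy.mono hM) ?_
      intro u hu v hv hadj
      obtain ⟨j, hj, hj2⟩ := h u (hM hu) v (hM hv) hadj
      rcases mem_insert.1 hj with rfl | hj
      · rcases hj2 with h' | h'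
        · exact absurd h' (hanti u hu v hv)
        · exact absurd h' (hanti v hv u hu)
      · exact ⟨j, hj, hj2⟩

lemma cb_univ {n : ℕ} (H : SimpleGraph (Fin n)) (z : ℕ) (hz : H.CliqueFree (z + 1)) :
    CB H univ z := by
  intro C _ hC
  by_contra hlt
  obtain ⟨D, hD1, hD2⟩ := Finset.exists_subset_card_eq (show z + 1 ≤ C.card by omega)
  exact hz D ⟨hC.subset (by exact_mod_cast hD1), hD2⟩

theorem cupper {n : ℕ} (G : SimpleGraph (Fin n)) {t x y j : ℕ} (ht : 1 ≤ t) (hy1 : 1 ≤ y)
    (hG : Closed G t) (hx : G.CliqueFree (x + 1)) (hy : Gᶜ.CliqueFree (y + 1)) (hj : 2 ^ j ≤ x) :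
    n ≤ (3 * t * y * 2 ^ t) ^ j * (x / 2 ^ j + y).choose (x / 2 ^ j) := by
  have := citer G ht hG hy1 j x univ hj (cb_univ G x hx) (cb_univ Gᶜ y hy)
  rwa [card_univ, Fintype.card_fin] at this

end Pool.Agent.H37Z.PO
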