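import Pool.Agent.H37Z.PO.Comp
import Pool.Agent.R70.BC.UpperAsym
import Pool.Agent.R734.CK.Extremal

set_option autoImplicit false

/-!
# Ramsey colourings whose red graph is a union of few comparability graphs: real bounds
-/

namespace Pool.Agent.H37Z.PO

open Finset Pool.Agent.R70.BC

/-- `G` is the union of the comparability graphs of `t` strict partial orders. -/
def ComparabilityUnion {n : ℕ} (G : SimpleGraph (Fin n)) (t : ℕ) : Prop :=
  ∃ r : Fin t → Fin n → Fin n → Prop, (∀ i, IsStrictOrder (Fin n) (r i)) ∧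
    ∀ u v, G.Adj u v ↔ ∃ i, r i u v ∨ r i v u

lemma ComparabilityUnion.closed {n : ℕ} {G : SimpleGraph (Fin n)} {t : ℕ}
    (h : ComparabilityUnion G t) : Closed G t := by
  obtain ⟨r, hr, hG⟩ := h
  refine ⟨r, ?_, ?_, ?_, ?_⟩
  · intro i u v h1 h2
    have := hr i
    exact asymm h1 h2
  · intro i u v h1
    exact (hG u v).2 ⟨i, Or.inl h1⟩
  · intro u v h1
    exact (hG u v).1 h1
  · intro i u v w h1 h2
    have := hr i
    exact (hG u w).2 ⟨i, Or.inl (_root_.trans h1 h2)⟩

lemma ComparabilityUnion.mono {n : ℕ} {G : SimpleGraph (Fin n)} {t t' : ℕ}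
    (h : ComparabilityUnion G t) (htt : t ≤ t') : ComparabilityUnion G t' := by
  obtain ⟨r, hr, hG⟩ := h
  refine ⟨fun i u v => ∃ hi : i.val < t, r ⟨i.val, hi⟩ u v, ?_, ?_⟩
  · intro i
    refine { irrefl := ?_, trans := ?_ }
    · rintro a ⟨hi, h1⟩
      have := hr ⟨i.val, hi⟩
      exact irrefl a h1
    · rintro a b c ⟨hi, h1⟩ ⟨_, h2⟩
      have := hr ⟨i.val, hi⟩
      exact ⟨hi, _root_.trans h1 h2⟩
  · intro u v
    rw [hG]
    constructor
    · rintro ⟨i, h1 | h1⟩
      · exact ⟨⟨i.val, by omega⟩, Or.inl ⟨i.isLt, h1⟩⟩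
      · exact ⟨⟨i.val, by omega⟩, Or.inr ⟨i.isLt, h1⟩⟩
    · rintro ⟨i, ⟨hi, h1⟩ | ⟨hi, h1⟩⟩
      · exact ⟨⟨i.val, hi⟩, Or.inl h1⟩
      · exact ⟨⟨i.val, hi⟩, Or.inr h1⟩

lemma Closed.mono {n : ℕ} {G : SimpleGraph (Fin n)} {t t' : ℕ}
    (h : Closed G t) (htt : t ≤ t') : Closed G t' := by
  obtain ⟨r, h1, h2, h3, h4⟩ := h
  refine ⟨fun i u v => ∃ hi : i.val < t, r ⟨i.val, hi⟩ u v, ?_, ?_, ?_, ?_⟩
  · rintro i u v ⟨hi, h⟩ ⟨_, h'⟩
    exact h1 _ u v h h'
  · rintro i u v ⟨hi, h⟩
    exact h2 _ u v h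
  · intro u v hadj
    obtain ⟨i, h | h⟩ := h3 u v hadj
    · exact ⟨⟨i.val, by omega⟩, Or.inl ⟨i.isLt, h⟩⟩
    · exact ⟨⟨i.val, by omega⟩, Or.inr ⟨i.isLt, h⟩⟩
  · rintro i u v w ⟨hi, h⟩ ⟨_, h'⟩
    exact h4 _ u v w h h'

/-- every graph on at most `2 ^ t` vertices is a union of `t` comparability graphs -/
theorem all_union {n t : ℕ} (G : SimpleGraph (Fin n)) (hn : n ≤ 2 ^ t) :
    ComparabilityUnion G t := by
  classical
  refine ⟨fun i u v => G.Adj u v ∧ u.val.testBit i.val = false ∧ v.val.testBit i.val = true,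
    ?_, ?_⟩
  · intro i
    refine { irrefl := ?_, trans := ?_ }
    · rintro a ⟨_, h1, h2⟩
      rw [h1] at h2
      exact absurd h2 (by simp)
    · rintro a b c ⟨_, _, h2⟩ ⟨_, h3, _⟩
      rw [h2] at h3
      exact absurd h3 (by simp)
  · intro u v
    constructor
    · intro hadj
      have hne : u.val ≠ v.val := fun h => hadj.ne (Fin.ext h)
      obtain ⟨i, hi⟩ : ∃ i, u.val.testBit i ≠ v.val.testBit i := by
        by_contra hcon
        push Not at hcon
        exact hne (Nat.eq_of_testBit_eq hcon)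
      have hit : i < t := by
        by_contra hge
        push Not at hge
        apply hi
        rw [Nat.testBit_lt_two_pow (lt_of_lt_of_le u.isLt (hn.trans (Nat.pow_le_pow_right
          (by norm_num) hge))), Nat.testBit_lt_two_pow (lt_of_lt_of_le v.isLt (hn.trans
          (Nat.pow_le_pow_right (by norm_num) hge)))]
      refine ⟨⟨i, hit⟩, ?_⟩
      cases hu : u.val.testBit i <;> cases hv : v.val.testBit i
      · rw [hu, hv] at hi; exact absurd rfl hi
      · exact Or.inl ⟨hadj, hu, hv⟩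
      · exact Or.inr ⟨hadj.symm, hv, hu⟩
      · rw [hu, hv] at hi; exact absurd rfl hi
    · rintro ⟨i, h | h⟩
      · exact h.1
      · exact h.1.symm

lemma log2_bounds : 0.6931 < Real.log 2 ∧ Real.log 2 < 0.6932 := by
  have h1 := Real.log_two_gt_d9
  have h2 := Real.log_two_lt_d9
  constructor <;> linarith

lemma log3_le : Real.log 3 ≤ 1.11 := by
  have h1 : Real.log 9 ≤ Real.log (8 * (9 / 8)) := Real.log_le_log (by norm_num) (by norm_num)
  rw [Real.log_mul (by norm_num) (by norm_num), show (9:ℝ) = 3 ^ 2 by norm_num, Real.log_pow,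
    show (8:ℝ) = 2 ^ 3 by norm_num, Real.log_pow] at h1
  have h2 : Real.log (3 ^ 2 / 2 ^ 3) ≤ 3 ^ 2 / 2 ^ 3 - 1 :=
    Real.log_le_sub_one_of_pos (by norm_num)
  have := log2_bounds
  push_cast at h1
  norm_num at h1 h2
  linarith [this.1, this.2]

/-- the logarithmic form of the bound, closed orientations -/
theorem closed_log {n t k : ℕ} (ht : 1 ≤ t) (htk : t ≤ k) (hk2 : 2 ≤ k) (G : SimpleGraph (Fin n))
    (hG : Closed G t) (h1 : G.CliqueFree k) (h2 : Gᶜ.CliqueFree k) :
    Real.log n ≤ 5 * (t + Real.log k) * Real.log (2 * k / t) := by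
  obtain ⟨l1, l2⟩ := log2_bounds
  have l3 := log3_le
  have ht1 : (1:ℝ) ≤ t := by exact_mod_cast ht
  have ht0 : (0:ℝ) < t := by linarith
  have htk' : (t:ℝ) ≤ k := by exact_mod_cast htk
  have hk2' : (2:ℝ) ≤ k := by exact_mod_cast hk2
  have hk0 : (0:ℝ) < k := by linarith
  have hlk : 0 < Real.log k := Real.log_pos (by linarith)
  set Λ := Real.log (k / t) with hΛ
  have hΛ0 : 0 ≤ Λ := Real.log_nonneg (by rw [le_div_iff₀ ht0]; linarith)
  have hL : Real.log (2 * k / t) = Real.log 2 + Λ := by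
    rw [mul_div_assoc, Real.log_mul (by norm_num) (by positivity)]
  rw [hL]
  rcases Nat.eq_zero_or_pos n with rfl | hn
  · simp only [Nat.cast_zero, Real.log_zero]
    positivity
  have hn0 : (0:ℝ) < n := by exact_mod_cast hn
  obtain ⟨b, rfl⟩ : ∃ b, k = b + 1 := ⟨k - 1, by omega⟩
  set j := Nat.log 2 (b / t) with hj
  have hj1 : 2 ^ j ≤ b := by
    rcases Nat.eq_zero_or_pos (b / t) with h | h
    · rw [hj, h]; simp; omega
    · have : 2 ^ j ≤ b / t := Nat.pow_log_le_self 2 h.ne'
      exact this.trans (Nat.div_le_self _ _)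
  have hj2 : b < t * 2 ^ (j + 1) := by
    have : b / t < 2 ^ (j + 1) := Nat.lt_pow_succ_log_self (by norm_num) _
    rw [Nat.div_lt_iff_lt_mul (by omega)] at this
    rwa [mul_comm]
  have hj3 : (j:ℝ) * Real.log 2 ≤ Λ := by
    rcases Nat.eq_zero_or_pos (b / t) with h | h
    · have : j = 0 := by rw [hj, h]; simp
      rw [this]; simpa using hΛ0
    · have h3 : 2 ^ j ≤ b / t := Nat.pow_log_le_self 2 h.ne'
      have h4 : 2 ^ j * t ≤ b := (Nat.le_div_iff_mul_le (by omega)).1 h3
      have h5 : (2:ℝ) ^ j ≤ ((b + 1 : ℕ) : ℝ) / t := by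
        rw [le_div_iff₀ ht0]
        exact_mod_cast (h4.trans (Nat.le_succ b))
      rw [← Real.log_pow]
      exact Real.log_le_log (by positivity) h5
  have h3 := cupper G (x := b) (y := b) ht (by omega) hG h1 h2 hj1
  set a := b / 2 ^ j with ha
  have ha2 : a < 2 * t := by
    rw [ha, Nat.div_lt_iff_lt_mul (by positivity)]
    calc b < t * 2 ^ (j + 1) := hj2
      _ = 2 * t * 2 ^ j := by ring
  have ha2' : (a:ℝ) ≤ 2 * t := by exact_mod_cast ha2.le
  have hc : (0:ℝ) < (a + b).choose a := by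
    exact_mod_cast Nat.choose_pos (by omega)
  have hb0 : (0:ℝ) < b := by
    have : 0 < b := by omega
    exact_mod_cast this
  have h4 : (n:ℝ) ≤ (3 * t * b * 2 ^ t) ^ j * ((a + b).choose a : ℝ) := by exact_mod_cast h3
  have h5 := Real.log_le_log hn0 h4
  rw [Real.log_mul (by positivity) hc.ne', Real.log_pow, Real.log_mul (by positivity)
    (by positivity), Real.log_mul (by positivity) hb0.ne', Real.log_mul (by norm_num) ht0.ne',
    Real.log_pow] at h5
  have h6 := log_choose_le a b (t / ((b + 1 : ℕ) : ℝ)) (by positivity)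
  have h7 : Real.log (1 / (t / ((b + 1 : ℕ) : ℝ))) = Λ := by
    rw [one_div_div]
  rw [h7] at h6
  have h8 : ((a:ℝ) + b) * (t / ((b + 1 : ℕ) : ℝ)) ≤ 3 * t := by
    rw [mul_div_assoc', div_le_iff₀ (by positivity)]
    push_cast at htk' ⊢
    nlinarith
  have h9 : (a:ℝ) * Λ ≤ 2 * t * Λ := by gcongr
  have h10 : Real.log b ≤ Real.log ((b + 1 : ℕ) : ℝ) :=
    Real.log_le_log hb0 (by push_cast; linarith)
  have h11 : Real.log t ≤ t - 1 := Real.log_le_sub_one_of_pos ht0
  have hj0 : (0:ℝ) ≤ j := Nat.cast_nonneg _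
  have hj4 : (j:ℝ) ≤ 1.443 * Λ := by nlinarith
  set K := Real.log ((b + 1 : ℕ) : ℝ) with hK
  have h12 : (j:ℝ) * (Real.log 3 + Real.log t + Real.log b + t * Real.log 2) ≤
      1.443 * Λ * (1.11 * t + K) + t * Λ := by
    have e1 : Real.log 3 + Real.log t + Real.log b ≤ 1.11 * t + K := by linarith
    have e2 : (j:ℝ) * (Real.log 3 + Real.log t + Real.log b) ≤ 1.443 * Λ * (1.11 * t + K) :=
      (mul_le_mul_of_nonneg_left e1 hj0).trans (mul_le_mul_of_nonneg_right hj4 (by positivity))
    have e3 : (j:ℝ) * (t * Real.log 2) ≤ t * Λ := by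
      calc (j:ℝ) * (t * Real.log 2) = t * (j * Real.log 2) := by ring
        _ ≤ t * Λ := by gcongr
    linarith
  have h13 : Real.log n ≤ 1.443 * Λ * (1.11 * t + K) + t * Λ + 2 * t * Λ + 3 * t := by linarith
  have e4 : 0 ≤ Λ * K := by positivity
  have e5 : 0 ≤ t * Λ := by positivity
  have e6 : 3 * (t:ℝ) ≤ 5 * (t * Real.log 2) := by nlinarith
  have e7 : 0 ≤ K * Real.log 2 := by positivity
  nlinarith

/-- the logarithmic form of the bound for unions of comparability graphs -/
theorem union_log {n t k : ℕ} (ht : 1 ≤ t) (htk : t ≤ k) (hk2 : 2 ≤ k) (G : SimpleGraph (Fin n))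
    (hG : ComparabilityUnion G t) (h1 : G.CliqueFree k) (h2 : Gᶜ.CliqueFree k) :
    Real.log n ≤ 10 * t * Real.log (2 * k / t) := by
  obtain ⟨l1, l2⟩ := log2_bounds
  have ht1 : (1:ℝ) ≤ t := by exact_mod_cast ht
  have ht0 : (0:ℝ) < t := by linarith
  have htk' : (t:ℝ) ≤ k := by exact_mod_cast htk
  have hk2' : (2:ℝ) ≤ k := by exact_mod_cast hk2
  have hk0 : (0:ℝ) < k := by linarith
  have hlk : 0 < Real.log k := Real.log_pos (by linarith)
  have hL0 : 0 < Real.log (2 * k / t) := Real.log_pos (by rw [lt_div_iff₀ ht0]; linarith)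
  rcases le_total (Real.log k) t with hkt | hkt
  · have h := closed_log ht htk hk2 G hG.closed h1 h2
    calc Real.log n ≤ 5 * (t + Real.log k) * Real.log (2 * k / t) := h
      _ ≤ 5 * (t + t) * Real.log (2 * k / t) := by gcongr
      _ = 10 * t * Real.log (2 * k / t) := by ring
  · rcases Nat.eq_zero_or_pos n with rfl | hn
    · simp only [Nat.cast_zero, Real.log_zero]
      positivity
    have hn0 : (0:ℝ) < n := by exact_mod_cast hn
    obtain ⟨b, rfl⟩ : ∃ b, k = b + 1 := ⟨k - 1, by omega⟩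
    have hb0 : 0 < b := by omega
    obtain ⟨r, hr, hGr⟩ := hG
    have h3 := classical_bound G r hr (fun i u v h => (hGr u v).2 ⟨i, Or.inl h⟩) b b univ univ
      (cb_univ G b h1) (cb_univ Gᶜ b h2) (fun u _ v _ h => by
        obtain ⟨i, hi⟩ := (hGr u v).1 h
        exact ⟨i, mem_univ _, hi⟩)
    rw [card_univ, Fintype.card_fin, card_univ, Fintype.card_fin] at h3
    have h4 : (n:ℝ) ≤ (b:ℝ) ^ (t + 1) := by
      rw [pow_succ]
      exact_mod_cast h3
    have h5 := Real.log_le_log hn0 h4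
    rw [Real.log_pow] at h5
    have hb1 : (0:ℝ) < b := by exact_mod_cast hb0
    have h6 : Real.log b ≤ Real.log ((b + 1 : ℕ) : ℝ) :=
      Real.log_le_log hb1 (by push_cast; linarith)
    set K := Real.log ((b + 1 : ℕ) : ℝ) with hK
    have hlb : 0 ≤ Real.log b := Real.log_nonneg (by exact_mod_cast hb0)
    -- `log (2 k / t) ≥ K / 2`
    have h7 : K / 2 ≤ Real.log (2 * ((b + 1 : ℕ) : ℝ) / t) := by
      rw [Real.log_div (by positivity) ht0.ne', Real.log_mul (by norm_num) hk0.ne', ← hK]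
      have h8 : Real.log t ≤ Real.log K := Real.log_le_log ht0 hkt
      have h9 : Real.log K ≤ K / 2 + Real.log 2 := by
        have h10 : Real.log (K / 2) ≤ K / 2 - 1 := Real.log_le_sub_one_of_pos (by positivity)
        rw [Real.log_div hlk.ne' (by norm_num)] at h10
        linarith
      linarith
    have h8 : Real.log n ≤ 2 * t * K := by
      push_cast at h5
      calc Real.log n ≤ (t + 1) * Real.log b := h5
        _ ≤ (t + t) * K := by gcongr
        _ = 2 * t * K := by ring
    nlinarith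

/-- growth rate -/
theorem growth {n t k : ℕ} {ε : ℝ} (hε : 0 < ε) (hε1 : ε ≤ 1 / 2) (hk : 1 ≤ ε * k)
    (ht : (t:ℝ) ≤ ε * k) (G : SimpleGraph (Fin n))
    (hG : ComparabilityUnion G t) (h1 : G.CliqueFree k) (h2 : Gᶜ.CliqueFree k) :
    Real.log n ≤ 10 * ε * Real.log (2 / ε) * k := by
  obtain ⟨l1, l2⟩ := log2_bounds
  have hk0 : (0:ℝ) < k := by
    rcases Nat.eq_zero_or_pos k with rfl | h
    · norm_num at hk
    · exact_mod_cast h
  set T := ⌊ε * k⌋₊ with hT
  have hT1 : 1 ≤ T := (Nat.le_floor_iff (by positivity)).2 (by simpa using hk)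
  have hTle : (T:ℝ) ≤ ε * k := Nat.floor_le (by positivity)
  have htT : t ≤ T := Nat.le_floor ht
  have hTk : T ≤ k := by
    have : (T:ℝ) ≤ k := by nlinarith
    exact_mod_cast this
  have hk2 : 2 ≤ k := by
    have : (2:ℝ) ≤ k := by nlinarith
    exact_mod_cast this
  have h := union_log hT1 hTk hk2 G (hG.mono htT) h1 h2
  have hT0 : (0:ℝ) < T := by exact_mod_cast hT1
  set L := Real.log (2 / ε) with hL
  have hL1 : 1 ≤ L := by
    have e1 : Real.log 4 ≤ L := Real.log_le_log (by norm_num) (by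
      rw [le_div_iff₀ hε]; linarith)
    have e2 : Real.log 4 = 2 * Real.log 2 := by
      rw [show (4:ℝ) = 2 ^ 2 by norm_num, Real.log_pow]; norm_num
    linarith
  have h3 : Real.log (2 * k / T) = L + Real.log (ε * k / T) := by
    rw [hL, ← Real.log_mul (by positivity) (by positivity)]
    congr 1
    field_simp
  have h4 : Real.log (ε * k / T) ≤ ε * k / T - 1 := Real.log_le_sub_one_of_pos (by positivity)
  have h5 : (T:ℝ) * Real.log (2 * k / T) ≤ ε * k * L := by
    rw [h3]
    have e1 : (T:ℝ) * Real.log (ε * k / T) ≤ ε * k - T := by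
      calc (T:ℝ) * Real.log (ε * k / T) ≤ T * (ε * k / T - 1) := by gcongr
        _ = ε * k - T := by field_simp
    nlinarith
  calc Real.log n ≤ 10 * T * Real.log (2 * k / T) := h
    _ = 10 * (T * Real.log (2 * k / T)) := by ring
    _ ≤ 10 * (ε * k * L) := by linarith
    _ = 10 * ε * L * k := by ring

/-- many vertices force many comparability graphs -/
theorem many_orders (θ : ℝ) (hθ : 0 < θ) (hθ1 : θ ≤ 1) (k t n : ℕ) (hk2 : 2 ≤ k)
    (G : SimpleGraph (Fin n)) (hG : ComparabilityUnion G t) (h1 : G.CliqueFree k)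
    (h2 : Gᶜ.CliqueFree k) (hn : Real.exp (θ * k) ≤ n) (ht : 1 ≤ t) :
    θ / (70 * Real.log (2 / θ)) * k ≤ t := by
  obtain ⟨l1, l2⟩ := log2_bounds
  set L := Real.log (2 / θ) with hL
  have hL2 : Real.log 2 ≤ L := by
    apply Real.log_le_log (by norm_num)
    rw [le_div_iff₀ hθ]
    linarith
  have hL0 : 0 < L := by linarith
  rcases Nat.lt_or_ge k t with hkt | htk
  · have h3 : θ / (70 * L) ≤ 1 := by
      rw [div_le_one (by positivity)]
      linarith
    have h4 : (k : ℝ) ≤ t := by exact_mod_cast hkt.le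
    calc θ / (70 * L) * k ≤ 1 * k := mul_le_mul_of_nonneg_right h3 (Nat.cast_nonneg _)
      _ ≤ t := by linarith
  by_contra hcon
  push Not at hcon
  have ht' : (1 : ℝ) ≤ t := by exact_mod_cast ht
  have ht0 : (0 : ℝ) < t := by linarith
  have htk' : (t : ℝ) ≤ k := by exact_mod_cast htk
  have hk0 : (0 : ℝ) < k := by linarith
  have h3 := union_log ht htk hk2 G hG h1 h2
  have hn0 : (0 : ℝ) < n := lt_of_lt_of_le (Real.exp_pos _) hn
  have h4 : θ * k ≤ Real.log n := (Real.le_log_iff_exp_le hn0).2 hn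
  set x : ℝ := t / k with hx
  have hx0 : 0 < x := by positivity
  have hxk : x * k = t := div_mul_cancel₀ _ hk0.ne'
  set c : ℝ := θ / (70 * L) with hc
  have hc0 : 0 < c := by positivity
  have hxc : x < c := by
    rw [hx, div_lt_iff₀ hk0]
    exact hcon
  have hlogx : Real.log (2 * k / t) = Real.log (2 / x) := by
    congr 1
    rw [hx]
    field_simp
  rw [hlogx] at h3
  have h5 : θ ≤ 10 * x * Real.log (2 / x) := by
    have h6 : θ * k ≤ (10 * x * Real.log (2 / x)) * k := by
      calc θ * k ≤ 10 * t * Real.log (2 / x) := h4.trans h3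
        _ = (10 * x * Real.log (2 / x)) * k := by rw [← hxk]; ring
    exact le_of_mul_le_mul_right h6 hk0
  have h6 : x * Real.log (2 / x) ≤ x * Real.log (2 / c) + (c - x) := by
    have e1 : Real.log (2 / x) = Real.log (2 / c) + Real.log (c / x) := by
      rw [← Real.log_mul (by positivity) (by positivity)]
      congr 1
      field_simp
    have e2 : Real.log (c / x) ≤ c / x - 1 := Real.log_le_sub_one_of_pos (by positivity)
    rw [e1, mul_add]
    have e3 : x * Real.log (c / x) ≤ c - x := by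
      calc x * Real.log (c / x) ≤ x * (c / x - 1) := mul_le_mul_of_nonneg_left e2 hx0.le
        _ = c - x := by
            field_simp
    linarith
  have h7 : Real.log (2 / c) < 7 * L := by
    have e1 : (2 : ℝ) / c = 70 * L * (2 / θ) := by
      rw [hc]
      field_simp
    rw [e1, Real.log_mul (by positivity) (by positivity), Real.log_mul (by norm_num) hL0.ne']
    have e2 : Real.log L ≤ L - 1 := Real.log_le_sub_one_of_pos hL0
    -- log 70 ≤ 6 log 2 + (70/64 - 1)
    have e3 : Real.log 70 ≤ 6 * Real.log 2 + 0.1 := by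
      have e4 : Real.log 70 = Real.log (2 ^ 6) + Real.log (70 / 64) := by
        rw [← Real.log_mul (by norm_num) (by norm_num)]
        norm_num
      have e5 : Real.log (70 / 64) ≤ 70 / 64 - 1 := Real.log_le_sub_one_of_pos (by norm_num)
      rw [e4, Real.log_pow]
      push_cast
      norm_num at e5
      linarith
    rw [← hL]
    nlinarith
  have h8 : Real.log (2 / c) ≥ 1 := by
    have e1 : (4 : ℝ) ≤ 2 / c := by
      rw [le_div_iff₀ hc0, hc, mul_div_assoc', div_le_iff₀ (by positivity)]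
      nlinarith
    have e2 : Real.log 4 ≤ Real.log (2 / c) := Real.log_le_log (by norm_num) e1
    have e3 : Real.log 4 = 2 * Real.log 2 := by
      rw [show (4 : ℝ) = 2 ^ 2 by norm_num, Real.log_pow]
      norm_num
    linarith
  have h9 : x * Real.log (2 / c) + (c - x) ≤ c * Real.log (2 / c) := by
    nlinarith
  have h10 : c * Real.log (2 / c) < c * (7 * L) := mul_lt_mul_of_pos_left h7 hc0
  have h11 : c * (7 * L) = θ / 10 := by
    rw [hc]
    field_simp
    ring
  have h12 : 10 * x * Real.log (2 / x) < θ := by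
    calc 10 * x * Real.log (2 / x) = 10 * (x * Real.log (2 / x)) := by ring
      _ ≤ 10 * (c * Real.log (2 / c)) := by linarith
      _ < 10 * (c * (7 * L)) := by linarith
      _ = θ := by rw [h11]; ring
  linarith

end Pool.Agent.H37Z.PO
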